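import Mathlib

/-! A tridiagonal pair of diameter three whose scalar beta is forced to be q^2 + q^(-2), q = 2, and
which does not come from any module over the q-tetrahedron algebra. -/

set_option autoImplicit false
set_option linter.unusedVariables false

namespace Pool.Agent.Results.MP_b29e0e_al.DiameterThree

open Matrix

section Definitions

variable {K : Type} [Field K] {V : Type} [AddCommGroup V] [Module K V]

/-- `T` is diagonalizable with `d + 1` eigenspaces that can be listed so that `S` maps each of them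
into the sum of itself and its neighbours. -/
def HasTridiagonalListing (d : ℕ) (T S : Module.End K V) : Prop :=
  ∃ θ : Fin (d + 1) → K, Function.Injective θ ∧
    (∀ i, Module.End.eigenspace T (θ i) ≠ ⊥) ∧
    (⨆ i, Module.End.eigenspace T (θ i)) = ⊤ ∧
    ∀ i : Fin (d + 1), Submodule.map S (Module.End.eigenspace T (θ i)) ≤
      ⨆ (j : Fin (d + 1)) (_ : (j : ℕ) ≤ (i : ℕ) + 1 ∧ (i : ℕ) ≤ (j : ℕ) + 1),
        Module.End.eigenspace T (θ j)

/-- `A, As` is a tridiagonal pair of diameter `d`. -/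
def IsTridiagonalPair (d : ℕ) (A As : Module.End K V) : Prop :=
  HasTridiagonalListing d A As ∧ HasTridiagonalListing d As A ∧
  ∀ W : Submodule K V, (∀ v ∈ W, A v ∈ W) → (∀ v ∈ W, As v ∈ W) → W = ⊥ ∨ W = ⊤

/-- The two tridiagonal relations with scalars `β γ γs ϱ ϱs`. -/
def TridiagonalRelations (A As : Module.End K V) (β γ γs ϱ ϱs : K) : Prop :=
  A * (A ^ 2 * As - β • (A * As * A) + As * A ^ 2 - γ • (A * As + As * A) - ϱ • As)
    = (A ^ 2 * As - β • (A * As * A) + As * A ^ 2 - γ • (A * As + As * A) - ϱ • As) * A ∧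
  As * (As ^ 2 * A - β • (As * A * As) + A * As ^ 2 - γs • (A * As + As * A) - ϱs • A)
    = (As ^ 2 * A - β • (As * A * As) + A * As ^ 2 - γs • (A * As + As * A) - ϱs • A) * As

/-- The operators `X i j` satisfy the defining relations of the q-tetrahedron algebra. -/
def IsTetrahedronModule (q : K) (X : ZMod 4 → ZMod 4 → Module.End K V) : Prop :=
  (∀ i j : ZMod 4, j - i = 2 → X i j * X j i = 1) ∧
  (∀ i j k : ZMod 4,
    ((j - i = 1 ∧ k - j = 1) ∨ (j - i = 1 ∧ k - j = 2) ∨ (j - i = 2 ∧ k - j = 1)) →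
    q • (X i j * X j k) - q⁻¹ • (X j k * X i j) = (q - q⁻¹) • (1 : Module.End K V)) ∧
  (∀ i j k l : ZMod 4, j - i = 1 → k - j = 1 → l - k = 1 →
    X i j ^ 3 * X k l - (q ^ 2 + 1 + q⁻¹ ^ 2) • (X i j ^ 2 * X k l * X i j)
      + (q ^ 2 + 1 + q⁻¹ ^ 2) • (X i j * X k l * X i j ^ 2) - X k l * X i j ^ 3 = 0)

end Definitions

/-- complex four by four matrices -/
abbrev M3 := Matrix (Fin 4) (Fin 4) ℂ

/-- the diagonal matrix with entries 1, 4, 16, 64 -/
noncomputable def A0 : M3 := Matrix.diagonal ![1, 4, 16, 64]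

/-- the tridiagonal matrix -/
noncomputable def B0 : M3 := !![0, 84/25, 0, 0; 1, 0, 1, 0; 0, 1, 0, 21/100; 0, 0, 1, 0]

/-- tridiagonal relation for `a X + b Y` against `Z` -/
theorem td_Z {R : Type} [Ring R] [Algebra ℂ R] (X Y Z : R) (a b : ℂ)
    (hYX : Y * X = (4:ℂ) • (X * Y) - (3:ℂ) • (1:R))
    (hYZ : Y * Z = (1/4:ℂ) • (Z * Y) + (3/4:ℂ) • (1:R))
    (hS : X ^ 3 * Z - (21/4:ℂ) • (X ^ 2 * Z * X) + (21/4:ℂ) • (X * Z * X ^ 2) - Z * X ^ 3 = 0) :
    (a • X + b • Y) ^ 3 * Z - (21/4:ℂ) • ((a • X + b • Y) ^ 2 * Z * (a • X + b • Y))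
      + (21/4:ℂ) • ((a • X + b • Y) * Z * (a • X + b • Y) ^ 2) - Z * (a • X + b • Y) ^ 3
      = (-(225/16) * a * b : ℂ) • ((a • X + b • Y) * Z - Z * (a • X + b • Y)) := by
  have hYX' : ∀ w : R, w * Y * X = (4:ℂ) • (w * X * Y) - (3:ℂ) • w := by
    intro w
    rw [mul_assoc, hYX, mul_sub, mul_smul_comm, mul_smul_comm, mul_one, mul_assoc]
  have hYZ' : ∀ w : R, w * Y * Z = (1/4:ℂ) • (w * Z * Y) + (3/4:ℂ) • w := by
    intro w
    rw [mul_assoc, hYZ, mul_add, mul_smul_comm, mul_smul_comm, mul_one, mul_assoc]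
  have hS' : X * X * X * Z = (21/4:ℂ) • (X * X * Z * X) - (21/4:ℂ) • (X * Z * X * X) + Z * X * X * X := by
    have : X ^ 3 * Z = (21/4:ℂ) • (X ^ 2 * Z * X) - (21/4:ℂ) • (X * Z * X ^ 2) + Z * X ^ 3 := by
      have := hS
      rw [← sub_eq_zero]
      rw [← this]; abel
    simpa only [pow_succ, pow_zero, one_mul, mul_assoc] using this
  simp only [pow_succ, pow_zero, one_mul, add_mul, mul_add, smul_mul_assoc, mul_smul_comm, ← mul_assoc,
    hYX, hYZ, hYX', hYZ', hS', sub_mul, mul_sub, smul_add, smul_sub, smul_smul, mul_one]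
  module

/-- tridiagonal relation for `a X + b Y` against `W` -/
theorem td_W {R : Type} [Ring R] [Algebra ℂ R] (X Y W : R) (a b : ℂ)
    (hXY : X * Y = (1/4:ℂ) • (Y * X) + (3/4:ℂ) • (1:R))
    (hXW : X * W = (4:ℂ) • (W * X) - (3:ℂ) • (1:R))
    (hS : Y ^ 3 * W - (21/4:ℂ) • (Y ^ 2 * W * Y) + (21/4:ℂ) • (Y * W * Y ^ 2) - W * Y ^ 3 = 0) :
    (a • X + b • Y) ^ 3 * W - (21/4:ℂ) • ((a • X + b • Y) ^ 2 * W * (a • X + b • Y))
      + (21/4:ℂ) • ((a • X + b • Y) * W * (a • X + b • Y) ^ 2) - W * (a • X + b • Y) ^ 3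
      = (-(225/16) * a * b : ℂ) • ((a • X + b • Y) * W - W * (a • X + b • Y)) := by
  have hXY' : ∀ w : R, w * X * Y = (1/4:ℂ) • (w * Y * X) + (3/4:ℂ) • w := by
    intro w
    rw [mul_assoc, hXY, mul_add, mul_smul_comm, mul_smul_comm, mul_one, mul_assoc]
  have hXW' : ∀ w : R, w * X * W = (4:ℂ) • (w * W * X) - (3:ℂ) • w := by
    intro w
    rw [mul_assoc, hXW, mul_sub, mul_smul_comm, mul_smul_comm, mul_one, mul_assoc]
  have hS' : Y * Y * Y * W = (21/4:ℂ) • (Y * Y * W * Y) - (21/4:ℂ) • (Y * W * Y * Y) + W * Y * Y * Y := by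
    have : Y ^ 3 * W = (21/4:ℂ) • (Y ^ 2 * W * Y) - (21/4:ℂ) • (Y * W * Y ^ 2) + W * Y ^ 3 := by
      have := hS
      rw [← sub_eq_zero]
      rw [← this]; abel
    simpa only [pow_succ, pow_zero, one_mul, mul_assoc] using this
  simp only [pow_succ, pow_zero, one_mul, add_mul, mul_add, smul_mul_assoc, mul_smul_comm, ← mul_assoc,
    hXY, hXW, hXY', hXW', hS', sub_mul, smul_add, smul_sub, smul_smul, mul_one]
  module

theorem core_case (X Y Z W B : M3) (a as bs cs : ℂ) (ha : a ≠ 0)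
    (hA : A0 = a • X)
    (hXY : (4:ℂ) • (X * Y) - Y * X = (3:ℂ) • (1:M3))
    (hYZ : (4:ℂ) • (Y * Z) - Z * Y = (3:ℂ) • (1:M3))
    (hWX : (4:ℂ) • (W * X) - X * W = (3:ℂ) • (1:M3))
    (hB : B = as • Z + bs • W + cs • (1:M3))
    (b00 : B 0 0 = 0) (b11 : B 1 1 = 0) (b22 : B 2 2 = 0) (b02 : B 0 2 = 0)
    (b01 : B 0 1 ≠ 0) (b12 : B 1 2 ≠ 0) : False := by
  have hY : (4:ℂ) • (A0 * Y) - Y * A0 = (3 * a:ℂ) • (1:M3) := by
    rw [hA, smul_mul_assoc, mul_smul_comm, mul_comm (3:ℂ) a, mul_smul, ← hXY]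
    module
  have hW : (4:ℂ) • (W * A0) - A0 * W = (3 * a:ℂ) • (1:M3) := by
    rw [hA, smul_mul_assoc, mul_smul_comm, mul_comm (3:ℂ) a, mul_smul, ← hWX]
    module
  have eY : ∀ i j, ((4:ℂ) • (A0 * Y) - Y * A0) i j = ((3 * a:ℂ) • (1:M3)) i j := by
    intro i j; rw [hY]
  have eW : ∀ i j, ((4:ℂ) • (W * A0) - A0 * W) i j = ((3 * a:ℂ) • (1:M3)) i j := by
    intro i j; rw [hW]
  have eZ : ∀ i j, ((4:ℂ) • (Y * Z) - Z * Y) i j = ((3:ℂ) • (1:M3)) i j := by
    intro i j; rw [hYZ]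
  have eB : ∀ i j, B i j = (as • Z + bs • W + cs • (1:M3)) i j := by
    intro i j; rw [hB]
  have y00 : Y 0 0 = a := by
    have := eY 0 0
    simp [A0, Matrix.sub_apply, Matrix.smul_apply] at this
    linear_combination this / 3
  have y11 : Y 1 1 = a / 4 := by
    have := eY 1 1
    simp [A0, Matrix.sub_apply, Matrix.smul_apply] at this
    linear_combination this / 12
  have y22 : Y 2 2 = a / 16 := by
    have := eY 2 2
    simp [A0, Matrix.sub_apply, Matrix.smul_apply] at this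
    linear_combination this / 48
  have y02 : Y 0 2 = 0 := by
    have := eY 0 2
    simp [A0, Matrix.sub_apply, Matrix.smul_apply] at this
    linear_combination this / (-12)
  have y10 : Y 1 0 = 0 := by
    have := eY 1 0
    simp [A0, Matrix.sub_apply, Matrix.smul_apply] at this
    linear_combination this / 15
  have y21 : Y 2 1 = 0 := by
    have := eY 2 1
    simp [A0, Matrix.sub_apply, Matrix.smul_apply] at this
    linear_combination this / 60
  have y03 : Y 0 3 = 0 := by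
    have := eY 0 3
    simp [A0, Matrix.sub_apply, Matrix.smul_apply] at this
    linear_combination this / (-60)
  have y13 : Y 1 3 = 0 := by
    have := eY 1 3
    simp [A0, Matrix.sub_apply, Matrix.smul_apply] at this
    linear_combination this / (-48)
  have y31 : Y 3 1 = 0 := by
    have := eY 3 1
    simp [A0, Matrix.sub_apply, Matrix.smul_apply] at this
    linear_combination this / 252
  have y32 : Y 3 2 = 0 := by
    have := eY 3 2
    simp [A0, Matrix.sub_apply, Matrix.smul_apply] at this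
    linear_combination this / 240
  have w00 : W 0 0 = a := by
    have := eW 0 0
    simp [A0, Matrix.sub_apply, Matrix.smul_apply] at this
    linear_combination this / 3
  have w11 : W 1 1 = a / 4 := by
    have := eW 1 1
    simp [A0, Matrix.sub_apply, Matrix.smul_apply] at this
    linear_combination this / 12
  have w22 : W 2 2 = a / 16 := by
    have := eW 2 2
    simp [A0, Matrix.sub_apply, Matrix.smul_apply] at this
    linear_combination this / 48
  have w01 : W 0 1 = 0 := by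
    have := eW 0 1
    simp [A0, Matrix.sub_apply, Matrix.smul_apply] at this
    linear_combination this / 15
  have w12 : W 1 2 = 0 := by
    have := eW 1 2
    simp [A0, Matrix.sub_apply, Matrix.smul_apply] at this
    linear_combination this / 60
  have w02 : W 0 2 = 0 := by
    have := eW 0 2
    simp [A0, Matrix.sub_apply, Matrix.smul_apply] at this
    linear_combination this / 63
  have z01 := eZ 0 1
  have z02 := eZ 0 2
  have z12 := eZ 1 2
  have c00 := eB 0 0
  have c11 := eB 1 1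
  have c22 := eB 2 2
  have c01 := eB 0 1
  have c12 := eB 1 2
  have c02 := eB 0 2
  simp [Matrix.mul_apply, Fin.sum_univ_four, Matrix.sub_apply, Matrix.smul_apply, Matrix.add_apply] at z01 z02 z12 c00 c11 c22 c01 c12 c02
  rw [w00, b00] at c00
  rw [w11, b11] at c11
  rw [w22, b22] at c22
  rw [w01] at c01
  rw [w12] at c12
  rw [w02, b02] at c02
  simp at c01 c12 c02
  have has : as ≠ 0 := by
    rintro rfl
    apply b01
    simp [c01]
  have hz02 : Z 0 2 = 0 := by
    rcases c02 with h | h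
    · exact absurd h has
    · exact h
  rw [y00, y11, y02, y21, hz02, y03, y31] at z01
  rw [y00, y02, y22, hz02, y03, y32] at z02
  rw [y10, y11, y22, y02, y13, y32] at z12
  simp at z01 z02 z12
  have hz01 : Z 0 1 ≠ 0 := by
    intro h; apply b01; rw [c01, h, mul_zero]
  have hz12 : Z 1 2 ≠ 0 := by
    intro h; apply b12; rw [c12, h, mul_zero]
  have hy01 : Y 0 1 ≠ 0 := by
    intro h
    rw [h] at z01
    simp at z01
    have : a * Z 0 1 = 0 := by linear_combination (4/15) * z01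
    rcases mul_eq_zero.mp this with h | h
    · exact ha h
    · exact hz01 h
  have hy12 : Y 1 2 ≠ 0 := by
    intro h
    rw [h] at z12
    simp at z12
    have : a * Z 1 2 = 0 := by linear_combination (16/15) * z12
    rcases mul_eq_zero.mp this with h | h
    · exact ha h
    · exact hz12 h
  -- diagonal relation
  have hd : Z 0 0 - 5 * Z 1 1 + 4 * Z 2 2 = 0 := by
    have : as * (Z 0 0 - 5 * Z 1 1 + 4 * Z 2 2) = 0 := by
      linear_combination -c00 + 5 * c11 - 4 * c22
    rcases mul_eq_zero.mp this with h | h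
    · exact absurd h has
    · exact h
  have he : 20 * Z 1 1 - Z 0 0 - 64 * Z 2 2 = 0 := by
    have : Y 0 1 * Y 1 2 * (20 * Z 1 1 - Z 0 0 - 64 * Z 2 2) = 0 := by
      linear_combination Y 1 2 * z01 + (15/4) * a * z02 - 16 * Y 0 1 * z12
    rcases mul_eq_zero.mp this with h | h
    · rcases mul_eq_zero.mp h with h | h
      · exact absurd h hy01
      · exact absurd h hy12
    · exact h
  have hf : Z 1 1 = 4 * Z 2 2 := by linear_combination (hd + he) / 15
  rw [hf] at z12
  have : a * Z 1 2 = 0 := by linear_combination (16/15) * z12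
  rcases mul_eq_zero.mp this with h | h
  · exact ha h
  · exact hz12 h

/-- no matrices satisfy the required relations -/
theorem no_solution (X Y Z W : M3) (a b c as bs cs : ℂ)
    (h1 : (4:ℂ) • (X * Y) - Y * X = (3:ℂ) • (1:M3))
    (h2 : (4:ℂ) • (Y * Z) - Z * Y = (3:ℂ) • (1:M3))
    (h4 : (4:ℂ) • (W * X) - X * W = (3:ℂ) • (1:M3))
    (s1 : X ^ 3 * Z - (21/4:ℂ) • (X ^ 2 * Z * X) + (21/4:ℂ) • (X * Z * X ^ 2) - Z * X ^ 3 = 0)
    (s2 : Y ^ 3 * W - (21/4:ℂ) • (Y ^ 2 * W * Y) + (21/4:ℂ) • (Y * W * Y ^ 2) - W * Y ^ 3 = 0)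
    (hA : A0 = a • X + b • Y + c • (1:M3))
    (hB : B0 = as • Z + bs • W + cs • (1:M3)) : False := by
  have tZ := td_Z X Y Z a b
    (by rw [← h1]; abel)
    (by
      have : Y * Z = (1/4:ℂ) • ((4:ℂ) • (Y * Z)) := by rw [smul_smul]; norm_num
      rw [this]
      have h2' : (4:ℂ) • (Y * Z) = Z * Y + (3:ℂ) • (1:M3) := by rw [← h2]; abel
      rw [h2']; module) s1
  have tW := td_W X Y W a b
    (by
      have : X * Y = (1/4:ℂ) • ((4:ℂ) • (X * Y)) := by rw [smul_smul]; norm_num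
      rw [this]
      have h2' : (4:ℂ) • (X * Y) = Y * X + (3:ℂ) • (1:M3) := by rw [← h1]; abel
      rw [h2']; module)
    (by rw [← h4]; abel) s2
  have hD : a • X + b • Y = A0 - c • (1:M3) := by rw [hA]; abel
  have hD' : a • X + b • Y = Matrix.diagonal ![1 - c, 4 - c, 16 - c, 64 - c] := by
    rw [hD, A0]
    ext i j
    fin_cases i <;> fin_cases j <;> simp
  rw [hD'] at tZ tW
  set D : M3 := Matrix.diagonal ![1 - c, 4 - c, 16 - c, 64 - c] with hDdef
  have tB : D ^ 3 * B0 - (21/4:ℂ) • (D ^ 2 * B0 * D) + (21/4:ℂ) • (D * B0 * D ^ 2) - B0 * D ^ 3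
      = (-(225/16) * a * b : ℂ) • (D * B0 - B0 * D) := by
    have : D ^ 3 * B0 - (21/4:ℂ) • (D ^ 2 * B0 * D) + (21/4:ℂ) • (D * B0 * D ^ 2) - B0 * D ^ 3
      = as • (D ^ 3 * Z - (21/4:ℂ) • (D ^ 2 * Z * D) + (21/4:ℂ) • (D * Z * D ^ 2) - Z * D ^ 3)
        + bs • (D ^ 3 * W - (21/4:ℂ) • (D ^ 2 * W * D) + (21/4:ℂ) • (D * W * D ^ 2) - W * D ^ 3) := by
      rw [hB]
      simp only [mul_add, add_mul, mul_smul_comm, smul_mul_assoc, mul_one, one_mul]
      have e1 : D ^ 2 * D = D ^ 3 := by rw [← pow_succ]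
      have e2 : D * D ^ 2 = D ^ 3 := by rw [← pow_succ']
      rw [e1, e2]
      module
    rw [this, tZ, tW, hB]
    simp only [mul_add, add_mul, mul_smul_comm, smul_mul_assoc, mul_one, one_mul]
    module
  have e01 : (D ^ 3 * B0 - (21/4:ℂ) • (D ^ 2 * B0 * D) + (21/4:ℂ) • (D * B0 * D ^ 2) - B0 * D ^ 3) 0 1
      = ((-(225/16) * a * b : ℂ) • (D * B0 - B0 * D)) 0 1 := by rw [tB]
  have e12 : (D ^ 3 * B0 - (21/4:ℂ) • (D ^ 2 * B0 * D) + (21/4:ℂ) • (D * B0 * D ^ 2) - B0 * D ^ 3) 1 2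
      = ((-(225/16) * a * b : ℂ) • (D * B0 - B0 * D)) 1 2 := by rw [tB]
  simp only [hDdef, Matrix.diagonal_pow, Matrix.sub_apply, Matrix.add_apply, Matrix.smul_apply,
    Matrix.diagonal_mul, Matrix.mul_diagonal] at e01 e12
  simp [B0] at e01 e12
  have r1 : (1 - c) ^ 2 - (17/4) * (1 - c) * (4 - c) + (4 - c) ^ 2 = -(225/16) * a * b := by
    linear_combination e01 * (-25/252)*(1) 
  have r2 : (4 - c) ^ 2 - (17/4) * (4 - c) * (16 - c) + (16 - c) ^ 2 = -(225/16) * a * b := by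
    linear_combination e12 / (-12)
  have hc : c = 0 := by
    linear_combination (r2 - r1) / (15 * 9 / 4)
  subst hc
  have hab : a * b = 0 := by linear_combination (16/225) * r1
  simp only [zero_smul, add_zero] at hA
  rcases mul_eq_zero.mp hab with h | h
  · -- a = 0
    subst h
    simp only [zero_smul, zero_add] at hA
    have hb : b ≠ 0 := by
      rintro rfl
      have := congrFun (congrFun hA 0) 0
      simp [A0] at this
    refine core_case Yᵀ Xᵀ Wᵀ Zᵀ B0ᵀ b bs as cs hb ?_ ?_ ?_ ?_ ?_ ?_ ?_ ?_ ?_ ?_ ?_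
    · have := congrArg Matrix.transpose hA
      simpa [A0] using this
    · have := congrArg Matrix.transpose h1
      simpa [Matrix.transpose_sub, Matrix.transpose_smul, Matrix.transpose_mul] using this
    · have := congrArg Matrix.transpose h4
      simpa [Matrix.transpose_sub, Matrix.transpose_smul, Matrix.transpose_mul] using this
    · have := congrArg Matrix.transpose h2
      simpa [Matrix.transpose_sub, Matrix.transpose_smul, Matrix.transpose_mul] using this
    · have := congrArg Matrix.transpose hB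
      rw [this]
      simp [Matrix.transpose_add, Matrix.transpose_smul]
      abel
    all_goals simp [B0]
  · subst h
    simp only [zero_smul, add_zero] at hA
    have ha : a ≠ 0 := by
      rintro rfl
      have := congrFun (congrFun hA 0) 0
      simp [A0] at this
    refine core_case X Y Z W B0 a as bs cs ha hA h1 h2 h4 hB ?_ ?_ ?_ ?_ ?_ ?_
    all_goals simp [B0]


theorem td_one : A0 ^ 2 * B0 - (17/4 : ℂ) • (A0 * B0 * A0) + B0 * A0 ^ 2 = 0 := by
  ext i j
  rw [A0, Matrix.diagonal_pow]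
  simp only [Matrix.sub_apply, Matrix.add_apply, Matrix.smul_apply, Matrix.diagonal_mul,
    Matrix.mul_diagonal]
  fin_cases i <;> fin_cases j <;> simp [B0] <;> norm_num

theorem B0_sq : B0 ^ 2 = !![84/25, 0, 84/25, 0; 0, 109/25, 0, 21/100; 1, 0, 121/100, 0; 0, 1, 0, 21/100] := by
  rw [pow_two, B0]
  ext i j
  fin_cases i <;> fin_cases j <;> simp [Matrix.mul_apply, Fin.sum_univ_four] <;> norm_num

theorem B0_A0 : B0 * A0 * B0 = !![336/25, 0, 336/25, 0; 0, 484/25, 0, 84/25; 4, 0, 436/25, 0; 0, 16, 0, 84/25] := by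
  have h : B0 * A0 = !![0, 336/25, 0, 0; 1, 0, 16, 0; 0, 4, 0, 336/25; 0, 0, 16, 0] := by
    ext i j
    rw [A0, Matrix.mul_diagonal]
    fin_cases i <;> fin_cases j <;> simp [B0] <;> norm_num
  rw [h, B0]
  ext i j
  fin_cases i <;> fin_cases j <;> simp [Matrix.mul_apply, Fin.sum_univ_four] <;> norm_num

theorem td_two : B0 ^ 2 * A0 - (17/4 : ℂ) • (B0 * A0 * B0) + A0 * B0 ^ 2 - A0
    = (-(257/5) : ℂ) • (1 : M3) := by
  rw [B0_A0, B0_sq, A0]
  ext i j
  simp only [Matrix.sub_apply, Matrix.add_apply, Matrix.smul_apply, Matrix.diagonal_mul,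
    Matrix.mul_diagonal]
  fin_cases i <;> fin_cases j <;> simp <;> norm_num

theorem tri_of_vectors (T S : Module.End ℂ (Fin 4 → ℂ)) (θ : Fin 4 → ℂ)
    (f : Fin 4 → (Fin 4 → ℂ)) (c : Fin 4 → Fin 4 → ℂ)
    (hinj : Function.Injective θ) (hf : ∀ i, T (f i) = θ i • f i) (hne : ∀ i, f i ≠ 0)
    (hc : ∀ i, S (f i) = ∑ j, c i j • f j)
    (hz : ∀ i j : Fin 4, ¬ ((j : ℕ) ≤ (i : ℕ) + 1 ∧ (i : ℕ) ≤ (j : ℕ) + 1) → c i j = 0) :
    (∀ i, Module.End.eigenspace T (θ i) ≠ ⊥) ∧
        (⨆ i, Module.End.eigenspace T (θ i)) = ⊤ ∧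
        ∀ i : Fin 4, Submodule.map S (Module.End.eigenspace T (θ i)) ≤
          ⨆ (j : Fin 4) (_ : (j : ℕ) ≤ (i : ℕ) + 1 ∧ (i : ℕ) ≤ (j : ℕ) + 1),
            Module.End.eigenspace T (θ j) := by
  have hev : ∀ i, T.HasEigenvector (θ i) (f i) := by
    intro i
    rw [Module.End.hasEigenvector_iff, Module.End.mem_eigenspace_iff]
    exact ⟨hf i, hne i⟩
  have hmem : ∀ i, f i ∈ Module.End.eigenspace T (θ i) := by
    intro i
    rw [Module.End.mem_eigenspace_iff]
    exact hf i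
  have hlin : LinearIndependent ℂ f := Module.End.eigenvectors_linearIndependent' T θ hinj f hev
  have hspan : ⊤ ≤ Submodule.span ℂ (Set.range f) := by
    rw [hlin.span_eq_top_of_card_eq_finrank' (by simp)]
  have hex : ∀ v : Fin 4 → ℂ, ∃ a : Fin 4 → ℂ, ∑ i, a i • f i = v := by
    intro v
    have hv : v ∈ Submodule.span ℂ (Set.range f) := hspan trivial
    exact (Submodule.mem_span_range_iff_exists_fun ℂ).mp hv
  refine ⟨?_, ?_, ?_⟩
  · intro i h
    have := hmem i
    rw [h, Submodule.mem_bot] at this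
    exact hne i this
  · rw [eq_top_iff]
    intro v _
    obtain ⟨a, rfl⟩ := hex v
    refine Submodule.sum_mem _ ?_
    intro i _
    exact Submodule.smul_mem _ _ (Submodule.mem_iSup_of_mem i (hmem i))
  · intro i
    rintro _ ⟨v, hv, rfl⟩
    obtain ⟨a, rfl⟩ := hex v
    have hv' := (Module.End.mem_eigenspace_iff).mp hv
    have ha : ∀ j, j ≠ i → a j = 0 := by
      intro j hj
      have h0 : ∑ j, (a j * (θ j - θ i)) • f j = 0 := by
        have : ∑ j, (a j * (θ j - θ i)) • f j = T (∑ j, a j • f j) - θ i • ∑ j, a j • f j := by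
          rw [map_sum, Finset.smul_sum, ← Finset.sum_sub_distrib]
          refine Finset.sum_congr rfl ?_
          intro j _
          rw [map_smul, hf, mul_sub, sub_smul, smul_smul, smul_smul, mul_comm (a j) (θ i)]
        rw [this, hv', sub_self]
      have := (Fintype.linearIndependent_iff.mp hlin) _ h0 j
      rcases mul_eq_zero.mp this with h | h
      · exact h
      · exact absurd (hinj (sub_eq_zero.mp h)) hj
    have hsum : ∑ j, a j • f j = a i • f i := by
      rw [Finset.sum_eq_single i]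
      · intro j _ hj; rw [ha j hj, zero_smul]
      · intro h; exact absurd (Finset.mem_univ i) h
    rw [hsum, map_smul, hc]
    refine Submodule.smul_mem _ _ (Submodule.sum_mem _ ?_)
    intro j _
    by_cases hj : ((j : ℕ) ≤ (i : ℕ) + 1 ∧ (i : ℕ) ≤ (j : ℕ) + 1)
    · refine Submodule.smul_mem _ _ ?_
      exact Submodule.mem_iSup_of_mem j (Submodule.mem_iSup_of_mem hj (hmem j))
    · rw [hz i j hj, zero_smul]
      exact Submodule.zero_mem _

/-- A tridiagonal pair of diameter three over the complex numbers with the unique scalar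
beta = 2^2 + 2^(-2) that does not come from any module over the q-tetrahedron algebra, q = 2. -/
theorem result :
    ∃ A As : Module.End ℂ (Fin 4 → ℂ),
      IsTridiagonalPair 3 A As ∧
      (∃ γ γs ϱ ϱs : ℂ, TridiagonalRelations A As ((2:ℂ) ^ 2 + (2:ℂ)⁻¹ ^ 2) γ γs ϱ ϱs) ∧
      (∀ β γ γs ϱ ϱs : ℂ, TridiagonalRelations A As β γ γs ϱ ϱs →
        β = (2:ℂ) ^ 2 + (2:ℂ)⁻¹ ^ 2) ∧
      ¬ ∃ X : ZMod 4 → ZMod 4 → Module.End ℂ (Fin 4 → ℂ), IsTetrahedronModule (2:ℂ) X ∧
        (∃ a b c : ℂ, A = a • X 0 1 + b • X 1 2 + c • (1 : Module.End ℂ (Fin 4 → ℂ))) ∧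
        (∃ a b c : ℂ, As = a • X 2 3 + b • X 3 0 + c • (1 : Module.End ℂ (Fin 4 → ℂ))) := by
  have tA := tri_of_vectors (Matrix.toLinAlgEquiv' A0) (Matrix.toLinAlgEquiv' B0) ![1, 4, 16, 64]
    (fun i => Pi.single i 1) (fun i j => B0 j i)
    (by
      intro i j h
      fin_cases i <;> fin_cases j <;> simp at h ⊢)
    (by
      intro i
      rw [Matrix.toLinAlgEquiv'_apply, Matrix.mulVec_single_one]
      ext k
      fin_cases i <;> fin_cases k <;> simp [A0])
    (by
      intro i h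
      have := congrFun h i
      simp at this)
    (by
      intro i
      rw [Matrix.toLinAlgEquiv'_apply, Matrix.mulVec_single_one]
      ext k
      fin_cases i <;> fin_cases k <;> simp [B0, Fin.sum_univ_four])
    (by
      intro i j h
      fin_cases i <;> fin_cases j <;> simp [B0] at h ⊢)
  have tB := tri_of_vectors (Matrix.toLinAlgEquiv' B0) (Matrix.toLinAlgEquiv' A0) ![21/10, 2/5, -(2/5), -(21/10)]
    ![![168/25, 21/5, 21/10, 1], ![-(21/50), -(1/20), 2/5, 1], ![21/50, -(1/20), -(2/5), 1], ![-(168/25), 21/5, -(21/10), 1]]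
    ![![80/17, 1008/17, 0, 0], ![12/17, 1285/34, 51/2, 0], ![0, 51/2, 1285/34, 12/17], ![0, 0, 1008/17, 80/17]]
    (by
      intro i j h
      fin_cases i <;> fin_cases j <;> simp at h ⊢ <;> norm_num at h)
    (by
      intro i
      rw [Matrix.toLinAlgEquiv'_apply]
      ext k
      fin_cases i <;> fin_cases k <;> simp [B0, Matrix.mulVec, dotProduct, Fin.sum_univ_four] <;> norm_num)
    (by
      intro i h
      have := congrFun h 0
      fin_cases i <;> simp at this)
    (by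
      intro i
      rw [Matrix.toLinAlgEquiv'_apply]
      ext k
      fin_cases i <;> fin_cases k <;> simp [A0, Matrix.mulVec, dotProduct, Fin.sum_univ_four, Matrix.diagonal] <;> norm_num)
    (by
      intro i j h
      fin_cases i <;> fin_cases j <;> simp at h ⊢)
  have injA : Function.Injective (![1, 4, 16, 64] : Fin 4 → ℂ) := by
    intro i j h
    fin_cases i <;> fin_cases j <;> simp at h ⊢
  have injB : Function.Injective (![21/10, 2/5, -(2/5), -(21/10)] : Fin 4 → ℂ) := by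
    intro i j h
    fin_cases i <;> fin_cases j <;> simp at h ⊢ <;> norm_num at h
  have hirr : ∀ W : Submodule ℂ (Fin 4 → ℂ), (∀ v ∈ W, (Matrix.toLinAlgEquiv' A0) v ∈ W) →
      (∀ v ∈ W, (Matrix.toLinAlgEquiv' B0) v ∈ W) → W = ⊥ ∨ W = ⊤ := by
    intro W hWA hWB
    by_cases hbot : W = ⊥
    · exact Or.inl hbot
    right
    have hA' : ∀ v ∈ W, (fun k => (![1, 4, 16, 64] : Fin 4 → ℂ) k * v k) ∈ W := by
      intro v hv
      have := hWA v hv
      rw [Matrix.toLinAlgEquiv'_apply] at this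
      convert this using 1
      ext k
      simp [A0, Matrix.mulVec_diagonal]
    have hshift : ∀ (t : ℂ) (v : Fin 4 → ℂ), v ∈ W →
        (fun k => ((![1, 4, 16, 64] : Fin 4 → ℂ) k - t) * v k) ∈ W := by
      intro t v hv
      have h1 := W.sub_mem (hA' v hv) (W.smul_mem t hv)
      convert h1 using 1
      ext k
      simp [sub_mul]
    have hcoord : ∀ v ∈ W, ∀ k : Fin 4, Pi.single k (v k) ∈ W := by
      intro v hv k
      fin_cases k
      · have h1 := W.smul_mem (-(1/2835) : ℂ) (hshift 4 _ (hshift 16 _ (hshift 64 _ hv)))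
        convert h1 using 1
        ext j
        fin_cases j <;> simp <;> ring
      · have h1 := W.smul_mem (1/2160 : ℂ) (hshift 1 _ (hshift 16 _ (hshift 64 _ hv)))
        convert h1 using 1
        ext j
        fin_cases j <;> simp <;> ring
      · have h1 := W.smul_mem (-(1/8640) : ℂ) (hshift 1 _ (hshift 4 _ (hshift 64 _ hv)))
        convert h1 using 1
        ext j
        fin_cases j <;> simp <;> ring
      · have h1 := W.smul_mem (1/181440 : ℂ) (hshift 1 _ (hshift 4 _ (hshift 16 _ hv)))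
        convert h1 using 1
        ext j
        fin_cases j <;> simp <;> ring
    have hB' : ∀ k : Fin 4, Pi.single k (1:ℂ) ∈ W → ∀ j : Fin 4, Pi.single j (B0 j k) ∈ W := by
      intro k hk j
      have h1 := hWB _ hk
      rw [Matrix.toLinAlgEquiv'_apply, Matrix.mulVec_single_one] at h1
      exact hcoord _ h1 j
    have hscale : ∀ (k : Fin 4) (x : ℂ), x ≠ 0 → Pi.single k x ∈ W → Pi.single k (1:ℂ) ∈ W := by
      intro k x hx h
      have := W.smul_mem x⁻¹ h
      rw [← Pi.single_smul] at this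
      simpa [hx] using this
    have h10 : Pi.single 1 (1:ℂ) ∈ W → Pi.single 0 (1:ℂ) ∈ W := by
      intro h
      exact hscale 0 (B0 0 1) (by simp [B0]) (hB' 1 h 0)
    have h12 : Pi.single 1 (1:ℂ) ∈ W → Pi.single 2 (1:ℂ) ∈ W := by
      intro h
      exact hscale 2 (B0 2 1) (by simp [B0]) (hB' 1 h 2)
    have h23 : Pi.single 2 (1:ℂ) ∈ W → Pi.single 3 (1:ℂ) ∈ W := by
      intro h
      exact hscale 3 (B0 3 2) (by simp [B0]) (hB' 2 h 3)
    have h01 : Pi.single 0 (1:ℂ) ∈ W → Pi.single 1 (1:ℂ) ∈ W := by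
      intro h
      exact hscale 1 (B0 1 0) (by simp [B0]) (hB' 0 h 1)
    have h21 : Pi.single 2 (1:ℂ) ∈ W → Pi.single 1 (1:ℂ) ∈ W := by
      intro h
      exact hscale 1 (B0 1 2) (by simp [B0]) (hB' 2 h 1)
    have h32 : Pi.single 3 (1:ℂ) ∈ W → Pi.single 2 (1:ℂ) ∈ W := by
      intro h
      exact hscale 2 (B0 2 3) (by simp [B0]) (hB' 3 h 2)
    obtain ⟨v, hv, hv0⟩ := Submodule.exists_mem_ne_zero_of_ne_bot hbot
    obtain ⟨k, hk⟩ : ∃ k, v k ≠ 0 := by
      by_contra hcon
      push Not at hcon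
      exact hv0 (funext hcon)
    have hk' : Pi.single k (1:ℂ) ∈ W := hscale k (v k) hk (hcoord v hv k)
    have hone : Pi.single 1 (1:ℂ) ∈ W := by
      fin_cases k
      · exact h01 hk'
      · exact hk'
      · exact h21 hk'
      · exact h21 (h32 hk')
    rw [eq_top_iff]
    intro w _
    have hw : w = w 0 • Pi.single 0 (1:ℂ) + w 1 • Pi.single 1 (1:ℂ) + w 2 • Pi.single 2 (1:ℂ)
        + w 3 • Pi.single 3 (1:ℂ) := by
      ext j
      fin_cases j <;> simp
    rw [hw]
    exact W.add_mem (W.add_mem (W.add_mem (W.smul_mem _ (h10 hone)) (W.smul_mem _ hone))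
      (W.smul_mem _ (h12 hone))) (W.smul_mem _ (h23 (h12 hone)))
  have htd : TridiagonalRelations (Matrix.toLinAlgEquiv' A0) (Matrix.toLinAlgEquiv' B0)
      ((2:ℂ) ^ 2 + (2:ℂ)⁻¹ ^ 2) 0 0 0 1 := by
    have e1 : ((2:ℂ) ^ 2 + (2:ℂ)⁻¹ ^ 2) = 17/4 := by norm_num
    have p1 := congrArg (fun m : M3 => Matrix.toLinAlgEquiv' m) td_one
    have p2 := congrArg (fun m : M3 => Matrix.toLinAlgEquiv' m) td_two
    simp only [map_sub, map_add, map_smul, map_mul, map_pow, map_zero, map_one] at p1 p2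
    refine ⟨?_, ?_⟩
    · rw [e1, p1]
      simp
    · rw [e1, zero_smul, sub_zero, one_smul, p2]
      simp
  have huniq : ∀ β γ γs ϱ ϱs : ℂ,
      TridiagonalRelations (Matrix.toLinAlgEquiv' A0) (Matrix.toLinAlgEquiv' B0) β γ γs ϱ ϱs →
      β = (2:ℂ) ^ 2 + (2:ℂ)⁻¹ ^ 2 := by
    intro β γ γs ϱ ϱs h
    have h1 := congrArg (fun T : Module.End ℂ (Fin 4 → ℂ) => LinearMap.toMatrixAlgEquiv' T) h.1
    simp only [map_sub, map_add, map_smul, map_mul, map_pow,
      LinearMap.toMatrixAlgEquiv'_toLinAlgEquiv'] at h1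
    have e : ∀ i j, (A0 * (A0 ^ 2 * B0 - β • (A0 * B0 * A0) + B0 * A0 ^ 2
        - γ • (A0 * B0 + B0 * A0) - ϱ • B0)) i j
        = ((A0 ^ 2 * B0 - β • (A0 * B0 * A0) + B0 * A0 ^ 2
        - γ • (A0 * B0 + B0 * A0) - ϱ • B0) * A0) i j := by
      intro i j
      rw [h1]
    have e01 := e 0 1
    have e12 := e 1 2
    have e23 := e 2 3
    simp only [A0, Matrix.diagonal_pow, Matrix.sub_apply, Matrix.add_apply, Matrix.smul_apply,
      Matrix.diagonal_mul, Matrix.mul_diagonal] at e01 e12 e23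
    simp [B0] at e01 e12 e23
    have r1 : 1 + 16 - 4 * β - 5 * γ - ϱ = 0 := by
      linear_combination (-(25/252) : ℂ) * e01
    have r2 : 16 + 256 - 64 * β - 20 * γ - ϱ = 0 := by
      linear_combination (-(1/12) : ℂ) * e12
    have r3 : 256 + 4096 - 1024 * β - 80 * γ - ϱ = 0 := by
      linear_combination (-(25/252) : ℂ) * e23
    have : β = 17/4 := by
      linear_combination (-(1/720) : ℂ) * r3 + (5/720 : ℂ) * r2 - (4/720 : ℂ) * r1
    rw [this]
    norm_num
  refine ⟨Matrix.toLinAlgEquiv' A0, Matrix.toLinAlgEquiv' B0,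
    ⟨⟨![1, 4, 16, 64], injA, tA⟩, ⟨![21/10, 2/5, -(2/5), -(21/10)], injB, tB⟩, hirr⟩,
    ⟨0, 0, 0, 1, htd⟩, huniq, ?_⟩
  rintro ⟨X, ⟨-, hX2, hX3⟩, ⟨a, b, c, hA⟩, ⟨as, bs, cs, hB⟩⟩
  let M : ZMod 4 → ZMod 4 → M3 := fun i j => LinearMap.toMatrixAlgEquiv' (X i j)
  have g2 : ∀ i j k : ZMod 4, (j - i = 1 ∧ k - j = 1) →
      (4:ℂ) • (M i j * M j k) - M j k * M i j = (3:ℂ) • (1 : M3) := by
    intro i j k h
    have h1 := hX2 i j k (Or.inl h)
    have h2 := congrArg (fun T : Module.End ℂ (Fin 4 → ℂ) => (2:ℂ) • LinearMap.toMatrixAlgEquiv' T) h1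
    simp only [map_sub, map_smul, map_mul, map_one, smul_sub, smul_smul] at h2
    have e1 : (2:ℂ) * 2 = 4 := by norm_num
    have e2 : (2:ℂ) * 2⁻¹ = 1 := by norm_num
    have e3 : (2:ℂ) * (2 - 2⁻¹) = 3 := by norm_num
    rw [e1, e2, e3, one_smul] at h2
    exact h2
  have g3 : ∀ i j k l : ZMod 4, j - i = 1 → k - j = 1 → l - k = 1 →
      M i j ^ 3 * M k l - (21/4:ℂ) • (M i j ^ 2 * M k l * M i j)
        + (21/4:ℂ) • (M i j * M k l * M i j ^ 2) - M k l * M i j ^ 3 = 0 := by
    intro i j k l h h' h''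
    have h1 := hX3 i j k l h h' h''
    have h2 := congrArg (fun T : Module.End ℂ (Fin 4 → ℂ) => LinearMap.toMatrixAlgEquiv' T) h1
    simp only [map_sub, map_add, map_smul, map_mul, map_pow, map_zero] at h2
    have e1 : ((2:ℂ) ^ 2 + 1 + (2:ℂ)⁻¹ ^ 2) = 21/4 := by norm_num
    rw [e1] at h2
    exact h2
  have hA' : A0 = a • M 0 1 + b • M 1 2 + c • (1:M3) := by
    have h2 := congrArg (fun T : Module.End ℂ (Fin 4 → ℂ) => LinearMap.toMatrixAlgEquiv' T) hA
    simpa only [map_add, map_smul, map_one, LinearMap.toMatrixAlgEquiv'_toLinAlgEquiv'] using h2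
  have hB' : B0 = as • M 2 3 + bs • M 3 0 + cs • (1:M3) := by
    have h2 := congrArg (fun T : Module.End ℂ (Fin 4 → ℂ) => LinearMap.toMatrixAlgEquiv' T) hB
    simpa only [map_add, map_smul, map_one, LinearMap.toMatrixAlgEquiv'_toLinAlgEquiv'] using h2
  exact no_solution (M 0 1) (M 1 2) (M 2 3) (M 3 0) a b c as bs cs
    (g2 0 1 2 (by decide)) (g2 1 2 3 (by decide)) (g2 3 0 1 (by decide))
    (g3 0 1 2 3 (by decide) (by decide) (by decide))
    (g3 1 2 3 0 (by decide) (by decide) (by decide)) hA' hB'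

end Pool.Agent.Results.MP_b29e0e_al.DiameterThree
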